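import Pool.Agent.helper12.DD.Spec

/-!
# Project dd, module REC: recursion for `W`
-/

set_option autoImplicit false

open Pool.Agent.helper49.Blk

namespace Pool.Agent.DD

theorem REC_set {G : Type} [Group G] (p : ℕ) (H P : Subgroup G) :
    {C : List (Subgroup G) | RT p H P C} = {[]} ∪
      ⋃ Q ∈ {Q : Subgroup G | P < Q ∧ IsOp p (H ⊓ Subgroup.normalizer Q) Q},
        (fun C => Q :: C) '' {C : List (Subgroup G) | RT p (H ⊓ Subgroup.normalizer Q) Q C} := by
  ext C
  constructor
  · intro hC
    cases C with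
    | nil => exact Or.inl rfl
    | cons Q C =>
      obtain ⟨h1, h2, h3⟩ := hC
      right
      simp only [Set.mem_iUnion]
      exact ⟨Q, ⟨h1, h2⟩, C, h3, rfl⟩
  · rintro (rfl | hC)
    · exact trivial
    · simp only [Set.mem_iUnion] at hC
      obtain ⟨Q, ⟨h1, h2⟩, C', h3, rfl⟩ := hC
      exact ⟨h1, h2, h3⟩

theorem REC (hFIN : FIN_stmt) : REC_stmt := by
  intro G _ _ p H P φ
  unfold W
  rw [REC_set]
  have hfin : ∀ Q : Subgroup G, ((fun C => Q :: C) ''
      {C : List (Subgroup G) | RT p (H ⊓ Subgroup.normalizer Q) Q C}).Finite := fun Q =>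
    ((hFIN G p).2 _ _).image _
  have hS : {Q : Subgroup G | P < Q ∧ IsOp p (H ⊓ Subgroup.normalizer Q) Q}.Finite :=
    Set.toFinite _
  rw [finsum_mem_union, finsum_mem_biUnion]
  · have h0 : ∑ᶠ (i : List (Subgroup G)) (_ : i ∈ ({[]} : Set (List (Subgroup G)))),
        (-1) ^ i.length * φ i = φ [] := by
      rw [finsum_mem_singleton]
      simp
    rw [h0, sub_eq_add_neg, ← finsum_mem_neg_distrib]
    swap
    · exact hS
    congr 1
    refine finsum_mem_congr rfl fun Q _ => ?_
    rw [finsum_mem_image (fun a _ b _ h => List.tail_eq_of_cons_eq h),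
      ← finsum_mem_neg_distrib]
    swap
    · exact (hFIN G p).2 _ _
    refine finsum_mem_congr rfl fun C _ => ?_
    rw [List.length_cons, pow_succ]
    ring
  · intro Q _ Q' _ hne
    rw [Function.onFun, Set.disjoint_left]
    rintro _ ⟨C, _, rfl⟩ ⟨C', _, h⟩
    exact hne (List.head_eq_of_cons_eq h).symm
  · exact hS
  · exact fun Q _ => hfin Q
  · rw [Set.disjoint_left]
    rintro _ rfl h
    simp only [Set.mem_iUnion] at h
    obtain ⟨Q, _, C, _, h⟩ := h
    exact List.cons_ne_nil _ _ h
  · exact Set.finite_singleton _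
  · exact hS.biUnion fun Q _ => hfin Q

end Pool.Agent.DD
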